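import Pool.Agent.W957.CH.StmB

/-! Subtask CH-MARK+SEG. -/

set_option autoImplicit false

namespace Pool.Agent.W883.CH

open Finset Pool.Agent.W957.CH

theorem t_SEG : S_SEG := by
  classical
  intro n M hM
  set B : ℕ → ℕ := fun a => Nat.findGreatest
    (fun b => a ≤ b ∧ ∀ i, a ≤ i → i ≤ b → i ∉ M) (n - 1) with hB
  refine ⟨((insert 0 (M.image Nat.succ)).filter (fun a => a < n ∧ a ∉ M)).image
    (fun a => (a, B a)), ?_, ?_, ?_⟩
  · refine card_image_le.trans ((card_filter_le _ _).trans ((card_insert_le _ _).trans ?_))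
    exact Nat.add_le_add_right card_image_le 1
  · intro p hp
    obtain ⟨a, ha, rfl⟩ := mem_image.1 hp
    obtain ⟨-, han, haM⟩ := mem_filter.1 ha
    have h1 : (fun b => a ≤ b ∧ ∀ i, a ≤ i → i ≤ b → i ∉ M) a := by
      refine ⟨le_refl _, fun i h1 h2 => ?_⟩
      have : i = a := le_antisymm h2 h1
      rwa [this]
    have h2 := Nat.findGreatest_spec (P := fun b => a ≤ b ∧ ∀ i, a ≤ i → i ≤ b → i ∉ M)
      (show a ≤ n - 1 by omega) h1
    have h3 := Nat.findGreatest_le (P := fun b => a ≤ b ∧ ∀ i, a ≤ i → i ≤ b → i ∉ M) (n - 1)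
    refine ⟨h2.1, ?_, h2.2⟩
    change B a < n
    have : B a ≤ n - 1 := h3
    omega
  · intro i hin hiM
    have hex : ∃ a, ∀ k, a ≤ k → k ≤ i → k ∉ M := by
      refine ⟨i, fun k h1 h2 => ?_⟩
      have : k = i := le_antisymm h2 h1
      rwa [this]
    set a := Nat.find hex with ha
    have h1 : ∀ k, a ≤ k → k ≤ i → k ∉ M := Nat.find_spec hex
    have h2 : a ≤ i := Nat.find_min' hex (by
      intro k h1 h2
      have : k = i := le_antisymm h2 h1
      rwa [this])
    have h3 : a ∈ insert 0 (M.image Nat.succ) := by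
      rcases Nat.eq_zero_or_pos a with h0 | h0
      · rw [h0]; exact mem_insert_self _ _
      · apply mem_insert_of_mem
        have h4 := Nat.find_min hex (m := a - 1) (by omega)
        push Not at h4
        obtain ⟨k, hk1, hk2, hk3⟩ := h4
        have hk : k = a - 1 := by
          by_contra hne
          exact h1 k (by omega) hk2 hk3
        refine mem_image.2 ⟨a - 1, hk ▸ hk3, ?_⟩
        simp only [Nat.succ_eq_add_one]
        omega
    refine ⟨(a, B a), mem_image.2 ⟨a, mem_filter.2 ⟨h3, by omega, h1 a (le_refl _) h2⟩, rfl⟩,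
      h2, ?_⟩
    exact Nat.le_findGreatest (P := fun b => a ≤ b ∧ ∀ i, a ≤ i → i ≤ b → i ∉ M)
      (by omega) ⟨h2, h1⟩

theorem t_MARK (h : S_CH2C) (h2 : S_CL) : S_MARK := by
  classical
  intro V _ X n c hok hg
  obtain ⟨hcard, hed⟩ := h V X.G n c hg.cr
  obtain ⟨hcyc, htf, hlen⟩ := h2 V X.G n c hg.cr
  have hsub : ∀ x ∈ sg c 0 (n - 1), x ∈ X.A := by
    intro x hx
    have h1 : x ∈ (sg c 0 (n - 1)).toFinset := List.mem_toFinset.2 hx
    rw [htf] at h1
    obtain ⟨i, hi, rfl⟩ := mem_image.1 h1
    exact hg.sub i (mem_range.1 hi)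
  have hchd := hok.chd _ hcyc hsub
  have hchm := hok.chm _ hcyc hsub
  rw [htf] at hchd
  unfold ch2 at hchd
  rw [hed, hcard] at hchd
  set P := (range n ×ˢ range n).filter
    (fun p => X.G.Adj (c p.1) (c p.2) ∧ ¬ cons n p.1 p.2) with hP
  have hPc : P.card + 1 ≤ 2 * X.m := by omega
  have hbig := hok.big
  have hlenL := hg.len
  have hn : 100 * mu X.m + 100 ≤ n := by omega
  refine ⟨(range n).filter (fun i => chE X.G n c i) ∪
    ((range 9).image (fun j => j * (n / 8))).filter (fun i => i < n), ?_⟩
  constructor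
  · intro i hi
    rcases mem_union.1 hi with h1 | h1
    · exact mem_range.1 (mem_filter.1 h1).1
    · exact (mem_filter.1 h1).2
  · intro i hi hc
    exact mem_union_left _ (mem_filter.2 ⟨mem_range.2 hi, hc⟩)
  · intro a b hab hb hfree
    have hd : 0 < n / 8 := by
      have : 8 ≤ n := by omega
      omega
    have h1 : a / (n / 8) * (n / 8) ≤ a := Nat.div_mul_le_self _ _
    have h2 : a < (a / (n / 8) + 1) * (n / 8) := by
      have := Nat.lt_div_mul_add (a := a) hd
      rw [add_mul, one_mul]
      exact this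
    by_cases hj : 8 ≤ a / (n / 8)
    · have h3 : 8 * (n / 8) ≤ a := (Nat.mul_le_mul_right _ hj).trans h1
      unfold mu at hn
      omega
    · have h3 : b < (a / (n / 8) + 1) * (n / 8) := by
        by_contra hcon
        push Not at hcon
        apply hfree ((a / (n / 8) + 1) * (n / 8)) (by omega) hcon
        apply mem_union_right
        refine mem_filter.2 ⟨mem_image.2 ⟨a / (n / 8) + 1, mem_range.2 (by omega), rfl⟩, by omega⟩
      rw [add_mul, one_mul] at h3
      omega
  · have hC : ((range n).filter (fun i => chE X.G n c i)).card ≤ P.card := by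
      have : (range n).filter (fun i => chE X.G n c i) ⊆ P.image Prod.fst := by
        intro i hi
        obtain ⟨hi1, j, hj, hadj, hnc⟩ := mem_filter.1 hi
        exact mem_image.2 ⟨(i, j), mem_filter.2 ⟨mem_product.2 ⟨hi1, mem_range.2 hj⟩, hadj, hnc⟩, rfl⟩
      exact (card_le_card this).trans card_image_le
    have hD : (((range 9).image (fun j => j * (n / 8))).filter (fun i => i < n)).card ≤ 9 :=
      (card_filter_le _ _).trans (card_image_le.trans (by simp))
    have hU := card_union_le ((range n).filter (fun i => chE X.G n c i))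
      (((range 9).image (fun j => j * (n / 8))).filter (fun i => i < n))
    unfold mu
    omega

end Pool.Agent.W883.CH
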